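import Mathlib

/-!
# Boxes in dense subsets of products

A dense subset `D` of a product of `k` large finite sets contains all `2 ^ k` mixtures of two
points which differ in every coordinate (Erdős 1964).
-/

set_option autoImplicit false

namespace Pool.Agent.Helper1.BX

open Finset

/-- `u ^ M ≤ (u - v) ^ M + M v` for `0 ≤ v ≤ u ≤ 1`. -/
lemma pow_sub_le {u v : ℝ} (hv : 0 ≤ v) (huv : v ≤ u) (hu : u ≤ 1) (M : ℕ) :
    u ^ M ≤ (u - v) ^ M + M * v := by
  induction M with
  | zero => simp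
  | succ M ih =>
    have h0 : 0 ≤ u := hv.trans huv
    have h1 : (u - v) ^ M ≤ 1 := pow_le_one₀ (by linarith) (by linarith)
    have h2 : u * ((M : ℝ) * v) ≤ 1 * (M * v) :=
      mul_le_mul_of_nonneg_right hu (by positivity)
    calc u ^ (M + 1) = u * u ^ M := by ring
      _ ≤ u * ((u - v) ^ M + M * v) := mul_le_mul_of_nonneg_left ih h0
      _ = (u - v) ^ (M + 1) + v * (u - v) ^ M + u * (M * v) := by ring
      _ ≤ (u - v) ^ (M + 1) + v * 1 + 1 * (M * v) := by
          have h3 : v * (u - v) ^ M ≤ v * 1 := mul_le_mul_of_nonneg_left h1 hv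
          linarith
      _ = (u - v) ^ (M + 1) + ((M + 1 : ℕ) : ℝ) * v := by push_cast; ring

/-- `D` contains all mixtures of two points which differ in every coordinate. -/
def HasBox {k : ℕ} {X : Fin k → Type*} (D : Finset (∀ i, X i)) : Prop :=
  ∃ x y : ∀ i, X i, (∀ i, x i ≠ y i) ∧
    ∀ s : Fin k → Bool, (fun i => if s i then x i else y i) ∈ D

/-- one step: two different letters with a large common link -/
lemma exists_pair {k : ℕ} {X : Fin (k + 1) → Type} [∀ i, Fintype (X i)]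
    [∀ i, DecidableEq (X i)] {m : ℝ} (hm : 0 < m) (hX : m ≤ Fintype.card (X 0))
    (hX' : 0 < Fintype.card (∀ i : Fin k, X i.succ)) (D : Finset (∀ i, X i))
    (h : 1 / m < ((#D : ℝ) / Fintype.card (∀ i, X i)) ^ 2) :
    ∃ a b : X 0, a ≠ b ∧ ((#D : ℝ) / Fintype.card (∀ i, X i)) ^ 2 - 1 / m ≤
      (#{z : ∀ i : Fin k, X i.succ | Fin.cons a z ∈ D ∧ Fin.cons b z ∈ D} : ℝ) /
        Fintype.card (∀ i : Fin k, X i.succ) := by
  classical
  set N' : ℝ := ((Fintype.card (∀ i : Fin k, X i.succ) : ℕ) : ℝ) with hN'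
  set n₀ : ℝ := ((Fintype.card (X 0) : ℕ) : ℝ) with hn₀
  have hN'0 : 0 < N' := by rw [hN']; exact_mod_cast hX'
  have hn₀0 : 0 < n₀ := hm.trans_le hX
  have hN : (Fintype.card (∀ i, X i) : ℝ) = n₀ * N' := by
    rw [hn₀, hN', ← Nat.cast_mul, ← Fintype.card_prod]
    congr 1
    exact Fintype.card_congr (Fin.consEquiv X).symm
  rw [hN] at h ⊢
  -- degrees
  set deg : (∀ i : Fin k, X i.succ) → ℕ := fun z => #{a : X 0 | Fin.cons a z ∈ D} with hdeg
  set lk : X 0 → X 0 → ℕ := fun a b =>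
    #{z : ∀ i : Fin k, X i.succ | Fin.cons a z ∈ D ∧ Fin.cons b z ∈ D} with hlk
  have hsum : (#D : ℝ) = ∑ z, (deg z : ℝ) := by
    have h1 : #D = ∑ z, deg z := by
      have h2 : #D = #({p : (∀ i : Fin k, X i.succ) × X 0 | Fin.cons p.2 p.1 ∈ D} : Finset _) := by
        symm
        refine card_bij (fun p _ => (Fin.cons p.2 p.1 : ∀ i, X i)) ?_ ?_ ?_
        · intro p hp
          exact (mem_filter.1 hp).2
        · rintro ⟨z, a⟩ _ ⟨z', a'⟩ _ hzz
          simp only at hzz
          have h3 := Fin.cons_injective2 hzz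
          rw [h3.1, h3.2]
        · intro x hx
          refine ⟨(Fin.tail x, x 0), ?_, ?_⟩
          · rw [mem_filter]
            refine ⟨mem_univ _, ?_⟩
            simp only
            rw [Fin.cons_self_tail]
            exact hx
          · simp only
            rw [Fin.cons_self_tail]
      rw [h2, card_filter, ← univ_product_univ, sum_product]
      refine sum_congr rfl fun z _ => ?_
      rw [hdeg]
      simp only
      rw [card_filter]
    rw [h1]
    push_cast
    rfl
  have hsq : ∑ z, (deg z : ℝ) ^ 2 = ∑ a, ∑ b, (lk a b : ℝ) := by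
    have h1 : ∀ z, (deg z : ℝ) ^ 2 = ∑ a : X 0, ∑ b : X 0,
        (if Fin.cons a z ∈ D ∧ Fin.cons b z ∈ D then (1 : ℝ) else 0) := by
      intro z
      rw [hdeg]
      simp only
      rw [card_filter]
      push_cast
      rw [sq, sum_mul_sum]
      refine sum_congr rfl fun a _ => sum_congr rfl fun b _ => ?_
      by_cases ha : (Fin.cons a z : ∀ i, X i) ∈ D <;> by_cases hb : (Fin.cons b z : ∀ i, X i) ∈ D <;>
        simp [ha, hb]
    rw [sum_congr rfl fun z _ => h1 z, sum_comm]
    refine sum_congr rfl fun a _ => ?_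
    rw [sum_comm]
    refine sum_congr rfl fun b _ => ?_
    rw [hlk]
    simp only
    rw [card_filter]
    push_cast
    rfl
  have hcs : (#D : ℝ) ^ 2 ≤ N' * ∑ a, ∑ b, (lk a b : ℝ) := by
    rw [hsum, ← hsq]
    have h1 := sq_sum_le_card_mul_sum_sq (s := (univ : Finset (∀ i : Fin k, X i.succ)))
      (f := fun z => (deg z : ℝ))
    rw [card_univ] at h1
    exact h1
  by_contra hcon
  push Not at hcon
  set δ : ℝ := (#D : ℝ) / (n₀ * N') with hδ
  have hlk1 : ∀ a b, (lk a b : ℝ) ≤ N' := by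
    intro a b
    rw [hN', hlk]
    exact_mod_cast card_le_univ _
  have hbound : ∀ a b : X 0, (lk a b : ℝ) ≤ (δ ^ 2 - 1 / m) * N' + if a = b then N' else 0 := by
    intro a b
    by_cases hab : a = b
    · rw [if_pos hab]
      have h1 : 0 ≤ (δ ^ 2 - 1 / m) * N' := mul_nonneg (by linarith) hN'0.le
      have h2 := hlk1 a b
      linarith
    · rw [if_neg hab, add_zero]
      have h1 := hcon a b hab
      rw [div_lt_iff₀ hN'0] at h1
      exact h1.le
  have hstrict : ∑ a, ∑ b, (lk a b : ℝ) ≤ n₀ ^ 2 * ((δ ^ 2 - 1 / m) * N') + n₀ * N' := by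
    calc ∑ a, ∑ b, (lk a b : ℝ)
        ≤ ∑ a : X 0, ∑ b : X 0, ((δ ^ 2 - 1 / m) * N' + if a = b then N' else 0) :=
          sum_le_sum fun a _ => sum_le_sum fun b _ => hbound a b
      _ = n₀ ^ 2 * ((δ ^ 2 - 1 / m) * N') + n₀ * N' := by
          simp only [sum_add_distrib, sum_const, card_univ, sum_ite_eq, mem_univ, if_true,
            nsmul_eq_mul]
          rw [hn₀]
          ring
  -- strictness from a pair of different letters
  have hδD : (#D : ℝ) = δ * (n₀ * N') := by
    rw [hδ]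
    field_simp
  have h1 : δ ^ 2 * (n₀ * N') ^ 2 ≤ N' * (n₀ ^ 2 * ((δ ^ 2 - 1 / m) * N') + n₀ * N') := by
    calc δ ^ 2 * (n₀ * N') ^ 2 = (#D : ℝ) ^ 2 := by rw [hδD]; ring
      _ ≤ N' * ∑ a, ∑ b, (lk a b : ℝ) := hcs
      _ ≤ _ := mul_le_mul_of_nonneg_left hstrict hN'0.le
  -- `n₀ / m ≤ 1`: contradiction unless equality; treat the pairs precisely
  by_cases hone : ∃ a b : X 0, a ≠ b
  · obtain ⟨a₀, b₀, hab₀⟩ := hone
    have hlt : ∑ a, ∑ b, (lk a b : ℝ) < n₀ ^ 2 * ((δ ^ 2 - 1 / m) * N') + n₀ * N' := by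
      have h2 : ∑ a, ∑ b, (lk a b : ℝ) <
          ∑ a : X 0, ∑ b : X 0, ((δ ^ 2 - 1 / m) * N' + if a = b then N' else 0) := by
        refine sum_lt_sum (fun a _ => sum_le_sum fun b _ => hbound a b) ⟨a₀, mem_univ _, ?_⟩
        refine sum_lt_sum (fun b _ => hbound a₀ b) ⟨b₀, mem_univ _, ?_⟩
        rw [if_neg hab₀, add_zero]
        have h3 := hcon a₀ b₀ hab₀
        rw [div_lt_iff₀ hN'0] at h3
        exact h3
      refine lt_of_lt_of_le h2 (le_of_eq ?_)
      simp only [sum_add_distrib, sum_const, card_univ, sum_ite_eq, mem_univ, if_true,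
        nsmul_eq_mul]
      rw [hn₀]
      ring
    have h4 : δ ^ 2 * (n₀ * N') ^ 2 < N' * (n₀ ^ 2 * ((δ ^ 2 - 1 / m) * N') + n₀ * N') := by
      calc δ ^ 2 * (n₀ * N') ^ 2 = (#D : ℝ) ^ 2 := by rw [hδD]; ring
        _ ≤ N' * ∑ a, ∑ b, (lk a b : ℝ) := hcs
        _ < _ := mul_lt_mul_of_pos_left hlt hN'0
    have h5 : N' * (n₀ ^ 2 * ((δ ^ 2 - 1 / m) * N') + n₀ * N') =
        δ ^ 2 * (n₀ * N') ^ 2 + N' ^ 2 * n₀ * (1 - n₀ / m) := by
      field_simp
      ring
    have h6 : 1 - n₀ / m ≤ 0 := by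
      have : 1 ≤ n₀ / m := by rw [le_div_iff₀ hm]; linarith
      linarith
    have h7 : N' ^ 2 * n₀ * (1 - n₀ / m) ≤ 0 :=
      mul_nonpos_of_nonneg_of_nonpos (by positivity) h6
    rw [h5] at h4
    linarith
  · push Not at hone
    have h2 : n₀ ≤ 1 := by
      rw [hn₀]
      exact_mod_cast Fintype.card_le_one_iff.2 hone
    have h3 : m ≤ 1 := hX.trans h2
    have h4 : δ ≤ 1 := by
      rw [hδ, div_le_one (mul_pos hn₀0 hN'0), ← hN]
      have h4' : #D ≤ Fintype.card (∀ i, X i) := card_le_univ D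
      exact Nat.cast_le.mpr h4'
    have h5 : 0 ≤ δ := by
      rw [hδ]
      exact div_nonneg (Nat.cast_nonneg _) (mul_pos hn₀0 hN'0).le
    have h6 : δ ^ 2 ≤ 1 := pow_le_one₀ h5 h4
    have h7 : 1 ≤ 1 / m := by rw [le_div_iff₀ hm]; linarith
    linarith

/-- **Boxes in dense sets.** -/
theorem box_real : ∀ (k : ℕ) (X : Fin k → Type) [∀ i, Fintype (X i)] [∀ i, DecidableEq (X i)]
    (m : ℝ), 0 < m → (∀ i, m ≤ Fintype.card (X i)) → ∀ D : Finset (∀ i, X i),
    2 ^ k / m < ((#D : ℝ) / Fintype.card (∀ i, X i)) ^ (2 ^ k) → HasBox D := by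
  intro k
  induction k with
  | zero =>
    intro X _ _ m hm _ D h
    have hD : D.Nonempty := by
      rw [nonempty_iff_ne_empty]
      intro hD
      have h0 : (0 : ℝ) < 2 ^ 0 / m := by positivity
      have h1 : (#D : ℝ) = 0 := by rw [hD, card_empty, Nat.cast_zero]
      rw [h1, zero_div, zero_pow (by positivity)] at h
      linarith
    obtain ⟨x, hx⟩ := hD
    refine ⟨x, x, fun i => i.elim0, fun s => ?_⟩
    have : (fun i => if s i then x i else x i) = x := by
      funext i
      exact i.elim0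
    rw [this]
    exact hx
  | succ k ih =>
    intro X _ _ m hm hX D h
    have hcard0 : ∀ i, 0 < Fintype.card (X i) := by
      intro i
      have := hm.trans_le (hX i)
      exact_mod_cast this
    have hX' : 0 < Fintype.card (∀ i : Fin k, X i.succ) := by
      rw [Fintype.card_pi]
      exact prod_pos fun i _ => hcard0 _
    have hXall : 0 < Fintype.card (∀ i, X i) := by
      rw [Fintype.card_pi]
      exact prod_pos fun i _ => hcard0 _
    set δ : ℝ := (#D : ℝ) / Fintype.card (∀ i, X i) with hδ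
    have hδ0 : 0 ≤ δ := by rw [hδ]; positivity
    have hδ1 : δ ≤ 1 := by
      rw [hδ, div_le_one (by exact_mod_cast hXall)]
      exact_mod_cast card_le_univ _
    have hpow : δ ^ 2 ^ (k + 1) = (δ ^ 2) ^ 2 ^ k := by
      rw [← pow_mul, pow_succ]
      congr 1
      ring
    have hδ2 : 1 / m < δ ^ 2 := by
      rw [hpow] at h
      have h1 : (δ ^ 2) ^ 2 ^ k ≤ δ ^ 2 := by
        have h2 : 2 ^ k ≠ 0 := by positivity
        calc (δ ^ 2) ^ 2 ^ k ≤ (δ ^ 2) ^ 1 :=
              pow_le_pow_of_le_one (by positivity) (pow_le_one₀ hδ0 hδ1)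
                (Nat.one_le_two_pow)
          _ = δ ^ 2 := pow_one _
      have h3 : 1 / m ≤ 2 ^ (k + 1) / m := by
        refine div_le_div_of_nonneg_right ?_ hm.le
        exact one_le_pow₀ (by norm_num)
      linarith
    obtain ⟨a, b, hab, hE⟩ := exists_pair hm (hX 0) hX' D hδ2
    set E : Finset (∀ i : Fin k, X i.succ) := {z | Fin.cons a z ∈ D ∧ Fin.cons b z ∈ D} with hEdef
    set ε : ℝ := (#E : ℝ) / Fintype.card (∀ i : Fin k, X i.succ) with hε
    have h1 : 2 ^ k / m < ε ^ 2 ^ k := by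
      have h2 := pow_sub_le (u := δ ^ 2) (v := 1 / m) (by positivity) hδ2.le
        (pow_le_one₀ hδ0 hδ1) (2 ^ k)
      have h3 : (δ ^ 2 - 1 / m) ^ 2 ^ k ≤ ε ^ 2 ^ k :=
        pow_le_pow_left₀ (by linarith) hE _
      rw [hpow] at h
      have h4 : (2 : ℝ) ^ (k + 1) / m = 2 ^ k / m + ((2 ^ k : ℕ) : ℝ) * (1 / m) := by
        push_cast
        rw [pow_succ]
        ring
      rw [h4] at h
      linarith
    obtain ⟨x, y, hxy, hmix⟩ := ih (fun i => X i.succ) m hm (fun i => hX i.succ) E h1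
    refine ⟨Fin.cons a x, Fin.cons b y, ?_, ?_⟩
    · intro i
      refine Fin.cases ?_ ?_ i
      · exact hab
      · intro j
        rw [Fin.cons_succ, Fin.cons_succ]
        exact hxy j
    · intro s
      have h5 := hmix (fun i => s i.succ)
      rw [hEdef, mem_filter] at h5
      by_cases hs : s 0 = true
      · have h6 : (fun i => if s i = true then (Fin.cons a x : ∀ i, X i) i
            else (Fin.cons b y : ∀ i, X i) i) =
            Fin.cons a (fun i => if s i.succ = true then x i else y i) := by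
          funext i
          refine Fin.cases ?_ ?_ i
          · rw [if_pos hs, Fin.cons_zero, Fin.cons_zero]
          · intro j
            rw [Fin.cons_succ, Fin.cons_succ, Fin.cons_succ]
        rw [h6]
        exact h5.2.1
      · have h6 : (fun i => if s i = true then (Fin.cons a x : ∀ i, X i) i
            else (Fin.cons b y : ∀ i, X i) i) =
            Fin.cons b (fun i => if s i.succ = true then x i else y i) := by
          funext i
          refine Fin.cases ?_ ?_ i
          · rw [if_neg hs, Fin.cons_zero, Fin.cons_zero]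
          · intro j
            rw [Fin.cons_succ, Fin.cons_succ, Fin.cons_succ]
        rw [h6]
        exact h5.2.2

/-- **Boxes in dense sets**, integer form. -/
theorem box_nat (k : ℕ) (X : Fin k → Type) [∀ i, Fintype (X i)] [∀ i, DecidableEq (X i)]
    (m : ℕ) (hm : 0 < m) (hX : ∀ i, m ≤ Fintype.card (X i)) (D : Finset (∀ i, X i))
    (h : 2 ^ k * Fintype.card (∀ i, X i) ^ 2 ^ k < m * #D ^ 2 ^ k) : HasBox D := by
  have hN : 0 < Fintype.card (∀ i, X i) := by
    rw [Fintype.card_pi]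
    exact prod_pos fun i _ => hm.trans_le (hX i)
  have hN' : (0 : ℝ) < Fintype.card (∀ i, X i) := by exact_mod_cast hN
  have hm' : (0 : ℝ) < m := by exact_mod_cast hm
  refine box_real k X m hm' (fun i => by exact_mod_cast hX i) D ?_
  rw [div_pow, div_lt_div_iff₀ hm' (pow_pos hN' _)]
  have h2 : ((2 ^ k * Fintype.card (∀ i, X i) ^ 2 ^ k : ℕ) : ℝ) < ((m * #D ^ 2 ^ k : ℕ) : ℝ) := by
    exact_mod_cast h
  push_cast at h2
  linarith

end Pool.Agent.Helper1.BX
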