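import Pool.Agent.Helper72.AC.Circ
import Pool.Agent.Helper29.AC.Indep

/-!
Constant depth circuits: a large independent set of variables on which the success is not much
smaller.
-/

set_option autoImplicit false

namespace Pool.Agent.Helper1.BX

open Finset Filter Pool.Agent.Helper72.AC

lemma num_lt {n : ℕ} (x : Fin n → Bool) : num x < 2 ^ n := Nat.ofBits_lt_two_pow x

lemma num_surj {n N : ℕ} (h : N < 2 ^ n) : ∃ x : Fin n → Bool, num x = N :=
  ⟨fun i => N.testBit i, by rw [num, Nat.ofBits_testBit, Nat.mod_eq_of_lt h]⟩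

/-- the scale `e` -/
lemma exists_scale (n m q : ℕ) (hm : 0 < m) (hn : 2 ^ (q * m) ≤ n) :
    ∃ e, q ≤ e ∧ n ≤ 2 ^ (e * m) ∧ 2 ^ (e * m) ≤ 2 ^ m * n := by
  classical
  have hex : ∃ e, n ≤ 2 ^ (e * m) :=
    ⟨n, (Nat.lt_two_pow_self).le.trans (Nat.pow_le_pow_right (by norm_num)
      (Nat.le_mul_of_pos_right n hm))⟩
  have hn0 : 0 < n := (pow_pos (by norm_num) _).trans_le hn
  refine ⟨Nat.find hex, ?_, Nat.find_spec hex, ?_⟩
  · by_contra h
    push Not at h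
    have h1 := Nat.find_spec hex
    have h2 : 2 ^ (Nat.find hex * m) < 2 ^ (q * m) :=
      Nat.pow_lt_pow_right (by norm_num) (Nat.mul_lt_mul_of_pos_right h hm)
    omega
  · rcases Nat.eq_zero_or_pos (Nat.find hex) with h0 | h0
    · rw [h0, zero_mul, pow_zero]
      exact Nat.mul_pos (pow_pos (by norm_num) _) hn0
    · obtain ⟨e', he'⟩ : ∃ e', Nat.find hex = e' + 1 := ⟨Nat.find hex - 1, by omega⟩
      have h1 : ¬ n ≤ 2 ^ (e' * m) := Nat.find_min hex (by omega)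
      push Not at h1
      rw [he', Nat.add_mul, one_mul, pow_add, mul_comm]
      exact Nat.mul_le_mul_left _ h1.le

/-- the size of the independent set -/
lemma size_bound {n P b v w m M L N : ℕ} (hM : 2 ≤ M) (hn : 2 ^ m ≤ n) (hP0 : 0 < P)
    (hP : P ^ M ≤ 2 ^ m * n) (hv : n / P ≤ v) (hvn : v ≤ n) (hN : N ≤ L * n)
    (hw : v ^ 2 ≤ 2 * (w * (v + 2 * (N * b ^ 2)))) :
    (1 / (8 * (1 + 2 * L * (b : ℝ) ^ 2) * 2 ^ (2 * m))) * (n : ℝ) ^ (1 - 2 / (M : ℝ)) ≤ w := by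
  have hn0 : 0 < n := (pow_pos (by norm_num) _).trans_le hn
  have hPn : P ≤ n := by
    have h1 : P ^ M ≤ n ^ M := by
      calc P ^ M ≤ 2 ^ m * n := hP
        _ ≤ n * n := Nat.mul_le_mul_right _ hn
        _ = n ^ 2 := by ring
        _ ≤ n ^ M := Nat.pow_le_pow_right hn0 hM
    exact (Nat.pow_le_pow_iff_left (by omega)).1 h1
  have hk1 : 1 ≤ n / P := (Nat.one_le_div_iff hP0).2 hPn
  have hk2 : n < (n / P + 1) * P := by
    have := Nat.lt_div_mul_add hP0 (a := n)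
    rw [Nat.add_mul, one_mul]
    exact this
  have hM0 : (0 : ℝ) < M := by
    have : 0 < M := by omega
    exact_mod_cast this
  have hnR : (0 : ℝ) < n := by exact_mod_cast hn0
  have hPR : (0 : ℝ) < P := by exact_mod_cast hP0
  have h1 : (n : ℝ) ≤ 2 * v * P := by
    have h2 : n ≤ 2 * v * P := by
      calc n ≤ (n / P + 1) * P := hk2.le
        _ ≤ (2 * v) * P := Nat.mul_le_mul_right _ (by omega)
    exact_mod_cast h2
  have h2 : (v : ℝ) ^ 2 ≤ 2 * w * n * (1 + 2 * L * (b : ℝ) ^ 2) := by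
    have h3 : v ^ 2 ≤ 2 * w * n * (1 + 2 * L * b ^ 2) := by
      calc v ^ 2 ≤ 2 * (w * (v + 2 * (N * b ^ 2))) := hw
        _ ≤ 2 * (w * (n + 2 * ((L * n) * b ^ 2))) := by gcongr
        _ = _ := by ring
    exact_mod_cast h3
  have hPb : (P : ℝ) ≤ 2 ^ m * (n : ℝ) ^ (1 / (M : ℝ)) := by
    have h3 : (P : ℝ) ^ M ≤ (2 ^ m * (n : ℝ) ^ (1 / (M : ℝ))) ^ M := by
      have h4 : ((n : ℝ) ^ (1 / (M : ℝ))) ^ M = n := by
        rw [← Real.rpow_natCast, ← Real.rpow_mul hnR.le, one_div, inv_mul_cancel₀ hM0.ne',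
          Real.rpow_one]
      rw [mul_pow, h4]
      have h5 : (P : ℝ) ^ M ≤ 2 ^ m * n := by exact_mod_cast hP
      refine h5.trans (mul_le_mul_of_nonneg_right ?_ hnR.le)
      have h6 : (1 : ℝ) ≤ 2 ^ m := one_le_pow₀ (by norm_num)
      calc (2 : ℝ) ^ m = (2 ^ m) ^ 1 := (pow_one _).symm
        _ ≤ (2 ^ m) ^ M := pow_le_pow_right₀ h6 (by omega)
    exact le_of_pow_le_pow_left₀ (by omega) (by positivity) h3
  have hP2 : (P : ℝ) ^ 2 ≤ 2 ^ (2 * m) * (n : ℝ) ^ (2 / (M : ℝ)) := by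
    calc (P : ℝ) ^ 2 ≤ (2 ^ m * (n : ℝ) ^ (1 / (M : ℝ))) ^ 2 := pow_le_pow_left₀ hPR.le hPb 2
      _ = 2 ^ (2 * m) * (n : ℝ) ^ (2 / (M : ℝ)) := by
        rw [mul_pow, ← Real.rpow_natCast ((n : ℝ) ^ (1 / (M : ℝ))), ← Real.rpow_mul hnR.le,
          ← pow_mul, mul_comm m 2]
        congr 2
        push_cast
        ring
  have h3 : (n : ℝ) ≤ w * (8 * (1 + 2 * L * (b : ℝ) ^ 2)) * (P : ℝ) ^ 2 := by
    have h4 : (n : ℝ) ^ 2 ≤ 4 * (v : ℝ) ^ 2 * (P : ℝ) ^ 2 := by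
      calc (n : ℝ) ^ 2 ≤ (2 * v * P) ^ 2 := pow_le_pow_left₀ hnR.le h1 2
        _ = _ := by ring
    have h5 : (n : ℝ) ^ 2 ≤ n * (w * (8 * (1 + 2 * L * (b : ℝ) ^ 2)) * (P : ℝ) ^ 2) := by
      calc (n : ℝ) ^ 2 ≤ 4 * (v : ℝ) ^ 2 * (P : ℝ) ^ 2 := h4
        _ ≤ 4 * (2 * w * n * (1 + 2 * L * (b : ℝ) ^ 2)) * (P : ℝ) ^ 2 := by gcongr
        _ = _ := by ring
    rw [sq] at h5
    exact le_of_mul_le_mul_left h5 hnR
  have h6 : (n : ℝ) ≤ w * (8 * (1 + 2 * L * (b : ℝ) ^ 2) * 2 ^ (2 * m)) * (n : ℝ) ^ (2 / (M : ℝ)) := by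
    calc (n : ℝ) ≤ w * (8 * (1 + 2 * L * (b : ℝ) ^ 2)) * (P : ℝ) ^ 2 := h3
      _ ≤ w * (8 * (1 + 2 * L * (b : ℝ) ^ 2)) * (2 ^ (2 * m) * (n : ℝ) ^ (2 / (M : ℝ))) :=
        mul_le_mul_of_nonneg_left hP2 (by positivity)
      _ = _ := by ring
  have h7 : (n : ℝ) ^ (1 - 2 / (M : ℝ)) * (n : ℝ) ^ (2 / (M : ℝ)) = n := by
    rw [← Real.rpow_add hnR, sub_add_cancel, Real.rpow_one]
  have h8 : (n : ℝ) ^ (1 - 2 / (M : ℝ)) ≤ w * (8 * (1 + 2 * L * (b : ℝ) ^ 2) * 2 ^ (2 * m)) := by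
    have h9 : (0 : ℝ) < (n : ℝ) ^ (2 / (M : ℝ)) := Real.rpow_pos_of_pos hnR _
    exact le_of_mul_le_mul_right (h7.le.trans h6) h9
  rw [one_div, inv_mul_le_iff₀ (by positivity)]
  linarith

theorem core (hD : DepthStmt) (d K L M : ℕ) (hM : 2 ≤ M) : ∃ c : ℝ, 0 < c ∧
    ∀ᶠ n : ℕ in atTop, ∀ N ≤ L * n, ∀ G : Fin N → (Fin n → Bool) → Bool,
      (∀ t, Circ n (n ^ K) d (G t)) →
      ∀ D : Finset (Fin n → Bool), (2 : ℝ) ^ n ≤ (n : ℝ) ^ K * D.card →
        ∃ (I : Finset (Fin n)) (z : Fin n → Bool), c * (n : ℝ) ^ (1 - 2 / (M : ℝ)) ≤ I.card ∧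
          1 / (2 * (n : ℝ) ^ K) ≤ Helper72.AC.dens D I z ∧
          ∀ t, ∃ B : Finset (Fin n), (I ∩ B).card ≤ 1 ∧ ∀ x x', InC I z x → InC I z x' →
            (∀ j ∈ B, x j = x' j) → G t x = G t x' := by
  obtain ⟨m, hm⟩ : ∃ m, m = 2 * (d + 1) * M := ⟨_, rfl⟩
  have hm0 : 0 < m := by rw [hm]; positivity
  obtain ⟨b, e₀, h⟩ := hD d (m * K + 1) (m + L) (m * K) m
  refine ⟨1 / (8 * (1 + 2 * L * (b : ℝ) ^ 2) * 2 ^ (2 * m)), by positivity, ?_⟩
  filter_upwards [eventually_ge_atTop (2 ^ (max (max e₀ (2 * d)) 1 * m))] with n hn N hN G hG D hDn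
  obtain ⟨e, he1, he2, he3⟩ := exists_scale n m _ hm0 hn
  have hee : e₀ ≤ e := le_trans (le_trans (le_max_left _ _) (le_max_left _ _)) he1
  have hed : 2 * d ≤ e := le_trans (le_trans (le_max_right _ _) (le_max_left _ _)) he1
  have hn0 : 0 < n := (pow_pos (by norm_num) _).trans_le hn
  have hnm : 2 ^ m ≤ n := by
    refine le_trans (Nat.pow_le_pow_right (by norm_num) ?_) hn
    exact Nat.le_mul_of_pos_left m (lt_of_lt_of_le one_pos (le_max_right _ _))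
  have hnR : (0 : ℝ) < n := by exact_mod_cast hn0
  have hP0 : 0 < 4 ^ (e * d) := pow_pos (by norm_num) _
  obtain ⟨V', -, z', hz', hk, hJ, hdens⟩ := h e hee n he2 (n ^ K)
    (by
      calc n ^ K ≤ (2 ^ (e * m)) ^ K := Nat.pow_le_pow_left he2 K
        _ = 2 ^ (e * (m * K)) := by rw [← pow_mul, mul_assoc])
    (Fin N) inferInstance G
    (by
      rw [Fintype.card_fin]
      calc N ≤ L * n := hN
        _ ≤ 2 ^ (e * L) * 2 ^ (e * m) := by
          refine Nat.mul_le_mul ?_ he2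
          refine Nat.lt_two_pow_self.le.trans (Nat.pow_le_pow_right (by norm_num) ?_)
          exact Nat.le_mul_of_pos_left L (lt_of_lt_of_le one_pos ((le_max_right _ _).trans he1))
        _ = 2 ^ (e * (m + L)) := by
          rw [← pow_add]
          congr 1
          ring) hG univ (fun _ => false) D
    (n / 4 ^ (e * d)) (by
      rw [card_univ, Fintype.card_fin]
      exact Nat.div_mul_le_self _ _)
  choose B hBV hBc hB using hJ
  obtain ⟨I, hIV, hI1, hI2⟩ := Pool.Agent.Helper29.AC.exists_indep V' B hBc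
  obtain ⟨z'', hz1, hz2⟩ := exists_fix D hIV z'
  have hin : ∀ x, InC I z'' x → InC V' z' x := by
    intro x hx i hi
    rw [hx i (fun hh => hi (hIV hh)), hz1 i hi]
  refine ⟨I, z'', ?_, ?_, ?_⟩
  · refine size_bound hM hnm hP0 ?_ hk ?_ hN hI2
    · refine le_trans ?_ he3
      have h4 : (4 ^ (e * d)) ^ M = 2 ^ (2 * (e * d) * M) := by
        rw [show (4 : ℕ) = 2 ^ 2 by norm_num, ← pow_mul, ← pow_mul]
        congr 1
        ring
      rw [h4]
      refine Nat.pow_le_pow_right (by norm_num) ?_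
      rw [hm]
      calc 2 * (e * d) * M = e * (2 * d * M) := by ring
        _ ≤ e * (2 * (d + 1) * M) := by gcongr; omega
    · calc V'.card ≤ (univ : Finset (Fin n)).card := card_le_card (subset_univ _)
        _ = n := by rw [card_univ, Fintype.card_fin]
  · have h5 : 1 / (n : ℝ) ^ K ≤ Helper72.AC.dens D univ (fun _ => false) := by
      have h6 : D.filter (fun x => InC univ (fun _ => false) x) = D := by
        refine filter_true_of_mem fun x _ i hi => ?_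
        exact absurd (mem_univ i) hi
      rw [Helper72.AC.dens, h6, card_univ, Fintype.card_fin, div_le_div_iff₀ (by positivity) (by positivity)]
      linarith
    have h7 : (d : ℝ) / 2 ^ (e * (m * K + 1)) ≤ 1 / (2 * (n : ℝ) ^ K) := by
      have h8 : 2 * (n : ℝ) ^ K * d ≤ 2 ^ (e * (m * K + 1)) := by
        have h9 : 2 * n ^ K * d ≤ 2 ^ (e * (m * K + 1)) := by
          calc 2 * n ^ K * d = n ^ K * (2 * d) := by ring
            _ ≤ (2 ^ (e * m)) ^ K * 2 ^ e :=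
              Nat.mul_le_mul (Nat.pow_le_pow_left he2 K) (hed.trans Nat.lt_two_pow_self.le)
            _ = 2 ^ (e * (m * K + 1)) := by
              rw [← pow_mul, ← pow_add]
              congr 1
              ring
        exact_mod_cast h9
      rw [div_le_div_iff₀ (by positivity) (by positivity)]
      linarith
    have h10 : 1 / (n : ℝ) ^ K = 1 / (2 * (n : ℝ) ^ K) + 1 / (2 * (n : ℝ) ^ K) := by
      field_simp
      norm_num
    linarith
  · intro t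
    exact ⟨B t, hI1 t, fun x x' hx hx' hj => hB t x x' (hin x hx) (hin x' hx') hj⟩

theorem red (hD : DepthStmt) (d K L : ℕ) (ε : ℝ) (hε : 0 < ε) :
    ∀ᶠ n : ℕ in atTop, ∀ N ≤ L * n, ∀ G : Fin N → (Fin n → Bool) → Bool,
      (∀ t, Circ n (n ^ K) d (G t)) →
      ∀ D : Finset (Fin n → Bool), (2 : ℝ) ^ n ≤ (n : ℝ) ^ K * D.card →
        ∃ (I : Finset (Fin n)) (z : Fin n → Bool), (n : ℝ) ^ (1 - ε) ≤ I.card ∧
          1 / (2 * (n : ℝ) ^ K) ≤ Helper72.AC.dens D I z ∧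
          ∀ t, ∃ B : Finset (Fin n), (I ∩ B).card ≤ 1 ∧ ∀ x x', InC I z x → InC I z x' →
            (∀ j ∈ B, x j = x' j) → G t x = G t x' := by
  obtain ⟨M, hM⟩ : ∃ M : ℕ, max 2 (4 / ε) ≤ M := exists_nat_ge _
  have hM2 : (2 : ℝ) ≤ M := (le_max_left _ _).trans hM
  have hM4 : 4 / ε ≤ M := (le_max_right _ _).trans hM
  have hM0 : (0 : ℝ) < M := by linarith
  obtain ⟨c, hc, hcore⟩ := core hD d K L M (by exact_mod_cast hM2)
  have h2M : 2 / (M : ℝ) ≤ ε / 2 := by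
    rw [div_le_iff₀ hε] at hM4
    rw [div_le_div_iff₀ hM0 (by norm_num)]
    linarith
  have hlim : Tendsto (fun n : ℕ => (n : ℝ) ^ (ε / 2)) atTop atTop :=
    (tendsto_rpow_atTop (by linarith)).comp tendsto_natCast_atTop_atTop
  filter_upwards [hcore, hlim.eventually_ge_atTop (1 / c), eventually_ge_atTop 1]
    with n hn h1 h0 N hN G hG D hDn
  obtain ⟨I, z, hI, hz, hB⟩ := hn N hN G hG D hDn
  refine ⟨I, z, ?_, hz, hB⟩
  have hn1 : (1 : ℝ) ≤ n := by exact_mod_cast h0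
  have hn0 : (0 : ℝ) < n := by linarith
  have h2 : (1 : ℝ) ≤ c * (n : ℝ) ^ (ε / 2) := by
    rw [div_le_iff₀ hc] at h1
    linarith
  calc (n : ℝ) ^ (1 - ε) = 1 * (n : ℝ) ^ (1 - ε) := (one_mul _).symm
    _ ≤ (c * (n : ℝ) ^ (ε / 2)) * (n : ℝ) ^ (1 - ε) :=
      mul_le_mul_of_nonneg_right h2 (Real.rpow_nonneg hn0.le _)
    _ = c * (n : ℝ) ^ (1 - ε / 2) := by
      rw [mul_assoc, ← Real.rpow_add hn0]
      congr 2
      ring
    _ ≤ c * (n : ℝ) ^ (1 - 2 / (M : ℝ)) :=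
      mul_le_mul_of_nonneg_left (Real.rpow_le_rpow_of_exponent_le hn1 (by linarith)) hc.le
    _ ≤ _ := hI

end Pool.Agent.Helper1.BX
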