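import Pool.Agent.Helper1.BX.Core
import Pool.Agent.Helper45.AC.Asym

/-!
Constant depth circuits: the final theorem from the depth reduction and the cube lemma.
-/

set_option autoImplicit false

namespace Pool.Agent.Helper1.BX

open Finset Filter Pool.Agent.Helper72.AC

/-- the right inputs -/
lemma card_right (n : ℕ) (P : ℕ → Prop) :
    ∃ D : Finset (Fin n → Bool), (∀ x, x ∈ D ↔ P (num x)) ∧
      Set.ncard {N | N < 2 ^ n ∧ P N} ≤ D.card := by
  classical
  refine ⟨univ.filter fun x => P (num x), fun x => by simp, ?_⟩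
  have h1 : {N | N < 2 ^ n ∧ P N} ⊆
      (((univ.filter fun x : Fin n → Bool => P (num x)).image num : Finset ℕ) : Set ℕ) := by
    rintro N ⟨hN, hP⟩
    obtain ⟨x, rfl⟩ := num_surj hN
    rw [mem_coe, mem_image]
    exact ⟨x, by rw [mem_filter]; exact ⟨mem_univ _, hP⟩, rfl⟩
  calc _ ≤ (((univ.filter fun x : Fin n → Bool => P (num x)).image num : Finset ℕ) :
        Set ℕ).ncard := Set.ncard_le_ncard h1 (Finset.finite_toSet _)
    _ = ((univ.filter fun x : Fin n → Bool => P (num x)).image num).card :=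
      Set.ncard_coe_finset _
    _ ≤ _ := card_image_le

theorem mainStmt (hD : DepthStmt) (hC : CubeStmt) : MainStmt := by
  intro d K ε hε
  have hlim : Tendsto (fun n : ℕ => (n : ℝ) ^ (ε / 2)) atTop atTop :=
    (tendsto_rpow_atTop (by linarith)).comp tendsto_natCast_atTop_atTop
  filter_upwards [red hD d K 1 (ε / 2) (by linarith),
    Pool.Agent.Helper45.AC.exists_ks K ε (ε / 2) 1 (by linarith) one_pos,
    hlim.eventually_ge_atTop 4, eventually_ge_atTop 1] with n hred hks h4 h1 A f hf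
  have hn1 : (1 : ℝ) ≤ n := by exact_mod_cast h1
  have hn0 : (0 : ℝ) < n := by linarith
  obtain ⟨D, hDmem, hDcard⟩ := card_right n fun N => f N ≤ N ∧ f N ∈ A ∧ N - f N ∈ A
  have key : (2 : ℝ) ^ n ≤ (n : ℝ) ^ K * D.card → ∃ (I : Finset (Fin n)) (z : Fin n → Bool),
      (n : ℝ) ^ (1 - ε / 2) ≤ I.card ∧ 1 / (2 * (n : ℝ) ^ K) ≤ Helper72.AC.dens D I z ∧
      ((∀ (k s : ℕ) (δ : ℝ), k * s ≤ I.card → 0 < δ → δ ≤ 1 → δ ≤ Helper72.AC.dens D I z →
        (2 / δ) ^ (2 ^ (k + 1)) ≤ 2 ^ s → ∃ m < 2 ^ (n + 1), 2 ^ k ≤ rep A m ^ 2) ∧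
      ((∀ x, InC I z x → x ∈ D) → ∃ m < 2 ^ (n + 1), 2 ^ I.card ≤ rep A m ^ 2)) := by
    intro hDn
    obtain ⟨I, z, hI, hz, hB⟩ := hred n (by omega)
      (fun i x => (f (num x)).testBit i) (fun i => hf i i.2) D hDn
    refine ⟨I, z, hI, hz, hC n A (fun x => f (num x)) I z D (fun x hx => (hDmem x).1 hx) ?_⟩
    intro i hi
    obtain ⟨B, hB1, hB2⟩ := hB ⟨i, hi⟩
    exact ⟨B, hB1, fun x x' hx hx' hj => hB2 x x' hx hx' hj⟩
  constructor
  · intro hcount
    obtain ⟨I, z, hI, hz, hE, -⟩ := key (hcount.trans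
      (mul_le_mul_of_nonneg_left (by exact_mod_cast hDcard) (by positivity)))
    obtain ⟨k, s, hks1, hks2, hks3⟩ := hks I.card (by rw [one_mul]; exact hI)
    have hK1 : (1 : ℝ) ≤ (n : ℝ) ^ K := one_le_pow₀ hn1
    obtain ⟨m, hm, hrep⟩ := hE k s (1 / (2 * (n : ℝ) ^ K)) hks1 (by positivity)
      (by rw [div_le_one (by positivity)]; linarith) hz (by
        refine le_trans (le_of_eq ?_) hks2
        congr 1
        field_simp
        norm_num)
    refine ⟨m, hm, ?_⟩
    have h2 : (n : ℝ) ^ (1 - 2 * ε) ≤ (rep A m : ℝ) ^ 2 := by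
      refine hks3.trans ?_
      exact_mod_cast hrep
    have h3 : ((n : ℝ) ^ (1 / 2 - ε)) ^ 2 = (n : ℝ) ^ (1 - 2 * ε) := by
      rw [← Real.rpow_natCast, ← Real.rpow_mul hn0.le]
      congr 1
      push_cast
      ring
    rw [← h3] at h2
    exact le_of_pow_le_pow_left₀ two_ne_zero (Nat.cast_nonneg _) h2
  · intro hall
    have hDall : ∀ x, x ∈ D := fun x => (hDmem x).2 (hall _ (num_lt x))
    have hDc : D.card = 2 ^ n := by
      have : D = univ := eq_univ_iff_forall.2 hDall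
      rw [this, card_univ]
      simp
    have hK1 : (1 : ℝ) ≤ (n : ℝ) ^ K := one_le_pow₀ hn1
    obtain ⟨I, z, hI, hz, -, hE⟩ := key (by
      rw [hDc]
      push_cast
      have : (0 : ℝ) ≤ 2 ^ n := by positivity
      nlinarith)
    obtain ⟨m, hm, hrep⟩ := hE fun x _ => hDall x
    refine ⟨m, hm, ?_⟩
    have h2 : 4 * (n : ℝ) ^ (1 - ε) ≤ I.card := by
      refine le_trans ?_ hI
      calc 4 * (n : ℝ) ^ (1 - ε) ≤ (n : ℝ) ^ (ε / 2) * (n : ℝ) ^ (1 - ε) :=
            mul_le_mul_of_nonneg_right h4 (Real.rpow_nonneg hn0.le _)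
        _ = (n : ℝ) ^ (1 - ε / 2) := by
          rw [← Real.rpow_add hn0]
          congr 1
          ring
    have h3 : (Real.exp ((n : ℝ) ^ (1 - ε))) ^ 2 ≤ (rep A m : ℝ) ^ 2 := by
      calc (Real.exp ((n : ℝ) ^ (1 - ε))) ^ 2 = Real.exp (2 * (n : ℝ) ^ (1 - ε)) := by
            rw [← Real.exp_nat_mul]
            norm_num
        _ ≤ Real.exp ((I.card : ℝ) * (1 / 2)) := Real.exp_le_exp.2 (by linarith)
        _ = Real.exp (1 / 2) ^ I.card := by rw [Real.exp_nat_mul]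
        _ ≤ 2 ^ I.card := by
          refine pow_le_pow_left₀ (Real.exp_pos _).le ?_ _
          have h5 : Real.exp (1 / 2) ^ 2 ≤ 2 ^ 2 := by
            rw [← Real.exp_nat_mul]
            have := Real.exp_one_lt_d9
            norm_num
            linarith
          exact le_of_pow_le_pow_left₀ two_ne_zero (by norm_num) h5
        _ ≤ (rep A m : ℝ) ^ 2 := by exact_mod_cast hrep
    exact le_of_pow_le_pow_left₀ two_ne_zero (Nat.cast_nonneg _) h3

end Pool.Agent.Helper1.BX
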