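import Pool.Agent.Helper1.BX.Main
import Pool.Agent.Helper72.AC.Circ2
import Pool.Agent.Helper72.AC.Depth

/-!
Constant depth circuits: the final theorem (one clause) from the cube lemma.
-/

set_option autoImplicit false

namespace Pool.Agent.Helper1.BX

open Finset Filter Pool.Agent.Helper72.AC

theorem mainStmt2 (hC : CubeStmt2) : MainStmt2 := by
  intro d K ε hε
  obtain ⟨η, hη0, hη1, hη2⟩ : ∃ η : ℝ, 0 < η ∧ η < ε ∧ η < 1 := by
    refine ⟨min (ε / 2) (1 / 2), by positivity, ?_, ?_⟩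
    · exact lt_of_le_of_lt (min_le_left _ _) (by linarith)
    · exact lt_of_le_of_lt (min_le_right _ _) (by norm_num)
  filter_upwards [red depthStmt d K 1 η hη0,
    Pool.Agent.Helper45.AC.exp_sq_le K ε η 1 hη1 hη2 one_pos, eventually_ge_atTop 1]
    with n hred hexp h1 A f hf hcount
  have hn1 : (1 : ℝ) ≤ n := by exact_mod_cast h1
  obtain ⟨D, hDmem, hDcard⟩ := card_right n fun N => f N ≤ N ∧ f N ∈ A ∧ N - f N ∈ A
  obtain ⟨I, z, hI, hz, hB⟩ := hred n (by omega)
    (fun i x => (f (num x)).testBit i) (fun i => hf i i.2) D (hcount.trans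
      (mul_le_mul_of_nonneg_left (by exact_mod_cast hDcard) (by positivity)))
  obtain ⟨m, hm, hrep⟩ := hC n A (fun x => f (num x)) I z D (fun x hx => (hDmem x).1 hx)
    (fun i hi => by
      obtain ⟨B, hB1, hB2⟩ := hB ⟨i, hi⟩
      exact ⟨B, hB1, fun x x' hx hx' hj => hB2 x x' hx hx' hj⟩)
  refine ⟨m, hm, le_of_pow_le_pow_left₀ two_ne_zero (Nat.cast_nonneg _) ?_⟩
  refine (hexp I.card (by rw [one_mul]; exact hI)).trans (le_trans ?_ hrep)
  have hn0 : (0 : ℝ) < n := by linarith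
  have h0 : (0 : ℝ) ≤ 1 / (2 * (n : ℝ) ^ K) := by positivity
  exact mul_le_mul_of_nonneg_right (pow_le_pow_left₀ h0 hz 2) (by positivity)

end Pool.Agent.Helper1.BX
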