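import Mathlib

/-!
A binary linear code of dimension `d` and length `N` without zero coordinates has a word of weight
at least `3 / 8 * (N + d)`.
-/

set_option autoImplicit false

namespace Pool.Agent.Helper1.BX

open Finset Module

variable {ι : Type} [Fintype ι] [DecidableEq ι]

/-- systematic form -/
lemma systematic (V : Submodule (ZMod 2) (ι → ZMod 2)) :
    ∃ (d : ℕ) (p : Fin d → ι) (e : Fin d → ι → ZMod 2), d = finrank (ZMod 2) V ∧
      Function.Injective p ∧ (∀ j, e j ∈ V) ∧ (∀ i j, e j (p i) = if i = j then 1 else 0) ∧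
      ∀ v ∈ V, ∀ k, v k = ∑ j, v (p j) * e j k := by
  classical
  let ℓ : ι → V →ₗ[ZMod 2] ZMod 2 := fun k => (LinearMap.proj k).comp V.subtype
  have hℓ : ∀ k v, ℓ k v = (v : ι → ZMod 2) k := fun k v => rfl
  have hsep : ∀ v : V, (∀ k, ℓ k v = 0) → v = 0 := by
    intro v hv
    refine Subtype.ext (funext fun k => ?_)
    exact hv k
  have htop : Submodule.span (ZMod 2) (Set.range ℓ) = ⊤ := by
    rw [Submodule.eq_top_iff']
    intro K
    refine mem_span_of_iInf_ker_le_ker ?_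
    intro v hv
    have : v = 0 := hsep v fun k => by
      rw [Submodule.mem_iInf] at hv
      exact hv k
    rw [this]
    exact Submodule.zero_mem _
  obtain ⟨f, hf1, hf2, hf3⟩ := Submodule.exists_fun_fin_finrank_span_eq (ZMod 2) (Set.range ℓ)
  have hd : finrank (ZMod 2) (Submodule.span (ZMod 2) (Set.range ℓ)) = finrank (ZMod 2) V := by
    rw [htop, finrank_top]
    exact Subspace.dual_finrank_eq
  choose p hp using hf1
  let φ : V →ₗ[ZMod 2] (Fin (finrank (ZMod 2) (Submodule.span (ZMod 2) (Set.range ℓ))) → ZMod 2) :=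
    LinearMap.pi fun i => ℓ (p i)
  have hφ : ∀ v i, φ v i = (v : ι → ZMod 2) (p i) := fun v i => rfl
  have hinj : Function.Injective φ := by
    rw [← LinearMap.ker_eq_bot, Submodule.eq_bot_iff]
    intro v hv
    rw [LinearMap.mem_ker] at hv
    refine hsep v fun k => ?_
    have hk : ℓ k ∈ Submodule.span (ZMod 2) (Set.range f) := by
      rw [hf2]
      exact Submodule.subset_span ⟨k, rfl⟩
    have hle : Submodule.span (ZMod 2) (Set.range f) ≤
        LinearMap.ker (LinearMap.applyₗ v : (V →ₗ[ZMod 2] ZMod 2) →ₗ[ZMod 2] ZMod 2) := by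
      rw [Submodule.span_le]
      rintro _ ⟨i, rfl⟩
      rw [SetLike.mem_coe, LinearMap.mem_ker, LinearMap.applyₗ_apply_apply, ← hp i]
      exact congrFun hv i
    exact hle hk
  have hsurj : Function.Surjective φ := by
    refine (LinearMap.injective_iff_surjective_of_finrank_eq_finrank ?_).1 hinj
    rw [finrank_fin_fun]
    exact hd.symm
  choose e he using fun j => hsurj (Pi.single j 1)
  have hep : ∀ i j, (e j : ι → ZMod 2) (p i) = if i = j then 1 else 0 := by
    intro i j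
    rw [← hφ, he j, Pi.single_apply]
  refine ⟨_, p, fun j => e j, hd, ?_, fun j => (e j).2, hep, ?_⟩
  · intro i i' h
    have h1 := hep i i
    have h2 := hep i' i
    rw [h, h2, if_pos rfl] at h1
    by_contra hne
    rw [if_neg (fun hh => hne hh.symm)] at h1
    exact zero_ne_one h1
  · intro v hv k
    have h1 : (⟨v, hv⟩ : V) = ∑ j, v (p j) • e j := by
      apply hinj
      funext i
      rw [map_sum, Finset.sum_apply, hφ]
      rw [Finset.sum_eq_single i]
      · rw [map_smul, Pi.smul_apply, he i, Pi.single_eq_same, smul_eq_mul, mul_one]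
      · intro j _ hj
        rw [map_smul, Pi.smul_apply, he j, Pi.single_eq_of_ne (Ne.symm hj), smul_zero]
      · intro h
        exact absurd (mem_univ i) h
    have h2 := congrArg (fun u : V => (u : ι → ZMod 2) k) h1
    simp only [Submodule.coe_sum, Submodule.coe_smul, Finset.sum_apply, Pi.smul_apply,
      smul_eq_mul] at h2
    exact h2

/-- the sign character -/
def chi (x : ZMod 2) : ℤ := if x = 0 then 1 else -1

lemma chi_add : ∀ x y : ZMod 2, chi (x + y) = chi x * chi y := by decide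

lemma chi_sum {κ : Type} (s : Finset κ) (f : κ → ZMod 2) :
    chi (∑ i ∈ s, f i) = ∏ i ∈ s, chi (f i) := by
  classical
  induction s using Finset.induction_on with
  | empty => simp [chi]
  | insert a s ha ih => rw [sum_insert ha, prod_insert ha, chi_add, ih]

lemma chi_pair : ∀ c : ZMod 2, ∑ p : ZMod 2 × ZMod 2, chi ((1 + p.1 * p.2) * c) =
    if c = 0 then 4 else -2 := by decide

lemma sum_chi {d : ℕ} (c : Fin d → ZMod 2) :
    ∑ w : Fin d → ZMod 2 × ZMod 2, chi (∑ j, (1 + (w j).1 * (w j).2) * c j) =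
      ∏ j, if c j = 0 then 4 else -2 := by
  have h1 : ∀ w : Fin d → ZMod 2 × ZMod 2, chi (∑ j, (1 + (w j).1 * (w j).2) * c j) =
      ∏ j, chi ((1 + (w j).1 * (w j).2) * c j) := fun w => chi_sum _ _
  rw [Finset.sum_congr rfl fun w _ => h1 w]
  rw [← Fintype.prod_sum fun (j : Fin d) (p : ZMod 2 × ZMod 2) => chi ((1 + p.1 * p.2) * c j)]
  exact Finset.prod_congr rfl fun j _ => chi_pair (c j)

lemma two_cnt {d : ℕ} (c : Fin d → ZMod 2) :
    2 * (#{w : Fin d → ZMod 2 × ZMod 2 | ∑ j, (1 + (w j).1 * (w j).2) * c j ≠ 0} : ℤ) =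
      4 ^ d - ∏ j, if c j = 0 then (4 : ℤ) else -2 := by
  classical
  have h1 : ∑ w : Fin d → ZMod 2 × ZMod 2, chi (∑ j, (1 + (w j).1 * (w j).2) * c j) =
      ∑ w : Fin d → ZMod 2 × ZMod 2,
        (1 - 2 * if ∑ j, (1 + (w j).1 * (w j).2) * c j ≠ 0 then (1 : ℤ) else 0) := by
    refine Finset.sum_congr rfl fun w _ => ?_
    unfold chi
    by_cases h : ∑ j, (1 + (w j).1 * (w j).2) * c j = 0 <;> simp [h]
  rw [← sum_chi, h1, Finset.sum_sub_distrib, ← Finset.mul_sum, Finset.card_filter]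
  have h2 : ((univ : Finset (Fin d → ZMod 2 × ZMod 2)).card : ℤ) = 4 ^ d := by
    rw [card_univ, Fintype.card_fun, Fintype.card_prod, Fintype.card_fin, ZMod.card]
    norm_num
  rw [Finset.sum_const, nsmul_eq_mul, mul_one, h2]
  push_cast
  ring

lemma cnt_active {d : ℕ} (c : Fin d → ZMod 2) (hc : ∃ j, c j ≠ 0) :
    3 * (4 : ℤ) ^ d ≤
      8 * (#{w : Fin d → ZMod 2 × ZMod 2 | ∑ j, (1 + (w j).1 * (w j).2) * c j ≠ 0} : ℤ) := by
  classical
  have h1 := two_cnt c
  set T : Finset (Fin d) := {j | ¬ c j = 0} with hT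
  set T' : Finset (Fin d) := {j | c j = 0} with hT'
  have h2 : ∏ j, (if c j = 0 then (4 : ℤ) else -2) = 4 ^ T'.card * (-2) ^ T.card := by
    rw [prod_ite, prod_const, prod_const]
  have h3 : T'.card + T.card = d := by
    have := card_filter_add_card_filter_not (s := (univ : Finset (Fin d))) (fun j => c j = 0)
    rw [card_univ, Fintype.card_fin] at this
    exact this
  have h4 : 1 ≤ T.card := by
    obtain ⟨j, hj⟩ := hc
    exact card_pos.2 ⟨j, by rw [hT, mem_filter]; exact ⟨mem_univ _, hj⟩⟩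
  have h5 : 4 * (-2 : ℤ) ^ T.card ≤ 4 ^ T.card := by
    generalize T.card = r at h4
    obtain ⟨s, rfl⟩ : ∃ s, r = s + 1 := ⟨r - 1, by omega⟩
    rcases Nat.eq_zero_or_pos s with hs | hs
    · subst hs
      norm_num
    · have h6 : (-2 : ℤ) ^ (s + 1) ≤ 2 ^ (s + 1) := by
        calc (-2 : ℤ) ^ (s + 1) ≤ |(-2 : ℤ) ^ (s + 1)| := le_abs_self _
          _ = 2 ^ (s + 1) := by rw [abs_pow]; norm_num
      have h7 : (4 : ℤ) ≤ 2 ^ (s + 1) := by
        calc (4 : ℤ) = 2 ^ 2 := by norm_num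
          _ ≤ 2 ^ (s + 1) := pow_le_pow_right₀ (by norm_num) (by omega)
      calc 4 * (-2 : ℤ) ^ (s + 1) ≤ 4 * 2 ^ (s + 1) := by linarith
        _ ≤ 2 ^ (s + 1) * 2 ^ (s + 1) := mul_le_mul_of_nonneg_right h7 (by positivity)
        _ = 4 ^ (s + 1) := by rw [← mul_pow]; norm_num
  have h6 : 4 * (4 ^ T'.card * (-2 : ℤ) ^ T.card) ≤ 4 ^ d := by
    calc 4 * (4 ^ T'.card * (-2 : ℤ) ^ T.card) = 4 ^ T'.card * (4 * (-2) ^ T.card) := by ring
      _ ≤ 4 ^ T'.card * 4 ^ T.card := mul_le_mul_of_nonneg_left h5 (by positivity)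
      _ = 4 ^ d := by rw [← pow_add, h3]
  rw [h2] at h1
  linarith

lemma cnt_pivot {d : ℕ} (i : Fin d) :
    8 * (#{w : Fin d → ZMod 2 × ZMod 2 |
      ∑ j, (1 + (w j).1 * (w j).2) * (if i = j then 1 else 0 : ZMod 2) ≠ 0} : ℤ) =
      6 * (4 : ℤ) ^ d := by
  classical
  have h1 := two_cnt (fun j : Fin d => (if i = j then 1 else 0 : ZMod 2))
  have h2 : 4 * ∏ j : Fin d, (if (if i = j then 1 else 0 : ZMod 2) = 0 then (4 : ℤ) else -2) =
      -2 * 4 ^ d := by
    rw [← mul_prod_erase univ _ (mem_univ i)]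
    rw [prod_congr rfl (g := fun _ => (4 : ℤ)) (fun j hj => by
      have : i ≠ j := fun h => (mem_erase.1 hj).1 h.symm
      simp [this])]
    rw [prod_const, card_erase_of_mem (mem_univ i), card_univ, Fintype.card_fin]
    have hd : 0 < d := i.pos
    obtain ⟨d', rfl⟩ : ∃ d', d = d' + 1 := ⟨d - 1, by omega⟩
    simp
    ring
  linarith

/-- **Heavy words.** -/
theorem exists_heavy (V : Submodule (ZMod 2) (ι → ZMod 2)) (S : Finset ι)
    (hS : ∀ k, k ∈ S ↔ ∃ v ∈ V, v k ≠ 0) :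
    ∃ s ∈ V, 3 * (#S + finrank (ZMod 2) V) ≤ 8 * #{k | s k ≠ 0} := by
  classical
  obtain ⟨d, p, e, hd, hp, heV, hep, hspan⟩ := systematic V
  by_contra hcon
  push Not at hcon
  set Ω := Fin d → ZMod 2 × ZMod 2 with hΩ
  let s : Ω → ι → ZMod 2 := fun w => ∑ j, (1 + (w j).1 * (w j).2) • e j
  have hsV : ∀ w, s w ∈ V := fun w => Submodule.sum_mem _ fun j _ => Submodule.smul_mem _ _ (heV j)
  have hsk : ∀ w k, s w k = ∑ j, (1 + (w j).1 * (w j).2) * e j k := by
    intro w k
    simp only [s, Finset.sum_apply, Pi.smul_apply, smul_eq_mul]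
  have hΩc : ((univ : Finset Ω).card : ℤ) = 4 ^ d := by
    rw [card_univ, Fintype.card_fun, Fintype.card_prod, Fintype.card_fin, ZMod.card]
    norm_num
  -- the total
  have h1 : ∑ w : Ω, (8 * (#{k | s w k ≠ 0} : ℤ)) <
      ∑ w : Ω, (3 * ((#S : ℤ) + d)) := by
    refine sum_lt_sum_of_nonempty ⟨fun _ => 0, mem_univ _⟩ fun w _ => ?_
    have := hcon (s w) (hsV w)
    rw [← hd] at this
    exact_mod_cast this
  rw [sum_const, nsmul_eq_mul, hΩc] at h1
  have h2 : ∑ w : Ω, (8 * (#{k | s w k ≠ 0} : ℤ)) = ∑ k, 8 * (#{w : Ω | s w k ≠ 0} : ℤ) := by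
    simp only [card_filter, Nat.cast_sum, mul_sum]
    exact sum_comm
  have h3 : ∀ k, (3 * (4 : ℤ) ^ d * ((if k ∈ S then 1 else 0) +
      (if k ∈ univ.image p then 1 else 0))) ≤ 8 * (#{w : Ω | s w k ≠ 0} : ℤ) := by
    intro k
    have h4 : #{w : Ω | s w k ≠ 0} =
        #{w : Ω | ∑ j, (1 + (w j).1 * (w j).2) * e j k ≠ 0} := by
      congr 1
      refine filter_congr fun w _ => ?_
      rw [hsk]
    rw [h4]
    by_cases hk : k ∈ univ.image p
    · obtain ⟨i, -, rfl⟩ := mem_image.1 hk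
      have h5 : ∃ v ∈ V, v (p i) ≠ 0 := ⟨e i, heV i, by rw [hep, if_pos rfl]; exact one_ne_zero⟩
      rw [if_pos hk, if_pos ((hS _).2 h5)]
      have h6 := cnt_pivot i
      simp only [hep]
      linarith
    · rw [if_neg hk]
      by_cases h5 : ∃ v ∈ V, v k ≠ 0
      · rw [if_pos ((hS k).2 h5)]
        have h6 : ∃ j, e j k ≠ 0 := by
          by_contra h7
          push Not at h7
          obtain ⟨v, hv, hvk⟩ := h5
          apply hvk
          rw [hspan v hv k]
          exact sum_eq_zero fun j _ => by rw [h7 j, mul_zero]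
        have h7 := cnt_active (fun j => e j k) h6
        linarith
      · rw [if_neg (fun h => h5 ((hS k).1 h))]
        have : (0 : ℤ) ≤ 8 * (#{w : Ω | ∑ j, (1 + (w j).1 * (w j).2) * e j k ≠ 0} : ℤ) :=
          mul_nonneg (by norm_num) (Nat.cast_nonneg _)
        linarith
  have h4 : ∑ k, (3 * (4 : ℤ) ^ d * ((if k ∈ S then 1 else 0) +
      (if k ∈ univ.image p then 1 else 0))) =
      3 * (4 : ℤ) ^ d * ((#S : ℤ) + d) := by
    rw [← mul_sum, sum_add_distrib]
    congr 1
    have h5 : ∑ k : ι, (if k ∈ univ.image p then (1 : ℤ) else 0) = d := by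
      rw [sum_ite_mem, univ_inter, sum_const, nsmul_eq_mul, mul_one,
        card_image_of_injective _ hp, card_univ, Fintype.card_fin]
    have h6 : ∑ k : ι, (if k ∈ S then (1 : ℤ) else 0) = (#S : ℤ) := by
      rw [sum_ite_mem, univ_inter, sum_const, nsmul_eq_mul, mul_one]
    rw [h5, h6]
  have h5 := sum_le_sum fun k (_ : k ∈ (univ : Finset ι)) => h3 k
  rw [h4, ← h2] at h5
  linarith

/-- the words of `V` whose support is contained in the support of `s` -/
def sub (V : Submodule (ZMod 2) (ι → ZMod 2)) (s : ι → ZMod 2) :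
    Submodule (ZMod 2) (ι → ZMod 2) where
  carrier := {v | v ∈ V ∧ ∀ k, s k = 0 → v k = 0}
  add_mem' := fun {a b} ha hb => ⟨V.add_mem ha.1 hb.1, fun k hk => by
    rw [Pi.add_apply, ha.2 k hk, hb.2 k hk, add_zero]⟩
  zero_mem' := ⟨V.zero_mem, fun _ _ => rfl⟩
  smul_mem' := fun c x hx => ⟨V.smul_mem c hx.1, fun k hk => by
    rw [Pi.smul_apply, hx.2 k hk, smul_zero]⟩

omit [Fintype ι] [DecidableEq ι] in
lemma mem_sub {V : Submodule (ZMod 2) (ι → ZMod 2)} {s v : ι → ZMod 2} :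
    v ∈ sub V s ↔ v ∈ V ∧ ∀ k, s k = 0 → v k = 0 := Iff.rfl

lemma dim_sub (V : Submodule (ZMod 2) (ι → ZMod 2)) (S : Finset ι)
    (hS : ∀ k, k ∈ S ↔ ∃ v ∈ V, v k ≠ 0) (s : ι → ZMod 2) :
    finrank (ZMod 2) V ≤ finrank (ZMod 2) (sub V s) + #{k ∈ S | s k = 0} := by
  classical
  set U : Finset ι := {k ∈ S | s k = 0} with hU
  let φ : V →ₗ[ZMod 2] (U → ZMod 2) :=
    LinearMap.pi fun k => (LinearMap.proj (k : ι)).comp V.subtype
  have h1 := LinearMap.finrank_range_add_finrank_ker φ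
  have h2 : finrank (ZMod 2) (LinearMap.range φ) ≤ U.card := by
    calc finrank (ZMod 2) (LinearMap.range φ) ≤ finrank (ZMod 2) (U → ZMod 2) :=
          Submodule.finrank_le _
      _ = U.card := by rw [finrank_fintype_fun_eq_card, Fintype.card_coe]
  have h3 : finrank (ZMod 2) (LinearMap.ker φ) ≤ finrank (ZMod 2) (sub V s) := by
    have h4 : ∀ v : LinearMap.ker φ, ((v : V) : ι → ZMod 2) ∈ sub V s := by
      intro v
      refine ⟨(v : V).2, fun k hk => ?_⟩
      by_contra h5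
      have h6 : k ∈ U := by
        rw [hU, mem_filter, hS]
        exact ⟨⟨_, (v : V).2, h5⟩, hk⟩
      exact h5 (congrFun (LinearMap.mem_ker.1 v.2) ⟨k, h6⟩)
    let ψ : LinearMap.ker φ →ₗ[ZMod 2] sub V s :=
      LinearMap.codRestrict (sub V s) (V.subtype.comp (LinearMap.ker φ).subtype) h4
    refine LinearMap.finrank_le_finrank_of_injective (f := ψ) ?_
    intro v w h
    have h5 := congrArg (fun x : sub V s => (x : ι → ZMod 2)) h
    exact Subtype.ext (Subtype.ext h5)
  omega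

/-- **Many words below one word.** -/
theorem exists_big (V : Submodule (ZMod 2) (ι → ZMod 2)) :
    ∃ s ∈ V, 11 * finrank (ZMod 2) V ≤ 8 * finrank (ZMod 2) (sub V s) + 5 * Fintype.card ι := by
  classical
  set S : Finset ι := {k | ∃ v ∈ V, v k ≠ 0} with hSdef
  have hS : ∀ k, k ∈ S ↔ ∃ v ∈ V, v k ≠ 0 := fun k => by rw [hSdef, mem_filter]; simp
  obtain ⟨s, hs, h1⟩ := exists_heavy V S hS
  refine ⟨s, hs, ?_⟩
  have h2 := dim_sub V S hS s
  have h3 : #{k ∈ S | s k = 0} + #{k | s k ≠ 0} = #S := by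
    have h4 : (univ.filter fun k => s k ≠ 0) = S.filter fun k => ¬ s k = 0 := by
      ext k
      rw [mem_filter, mem_filter, hS]
      exact ⟨fun h => ⟨⟨s, hs, h.2⟩, h.2⟩, fun h => ⟨mem_univ _, h.2⟩⟩
    rw [h4]
    exact card_filter_add_card_filter_not _
  have h4 : #S ≤ Fintype.card ι := card_le_univ S
  omega

end Pool.Agent.Helper1.BX
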