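import Pool.Agent.Helper45.AC.Stmt
import Pool.Agent.Helper98.AC.Cube3
import Pool.Agent.Helper1.BX.Wt

/-!
Circuits with XOR gates: from a dense set on an affine subspace where the digits are affine to
representations.
-/

set_option autoImplicit false

namespace Pool.Agent.Helper1.BX

open Finset Module
open Pool.Agent.Helper72.AC (rep num)
open Pool.Agent.Helper45.AC

theorem exists_below {V K : Type} [AddCommGroup V] [Module (ZMod 2) V] [Module.Finite (ZMod 2) V]
    [Fintype K] (ψ : K → Dual (ZMod 2) V) (hinj : ∀ v, (∀ k, ψ k v = 0) → v = 0) :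
    ∃ (s : V) (W : Submodule (ZMod 2) V), (∀ w ∈ W, ∀ k, ψ k s = 0 → ψ k w = 0) ∧
      11 * finrank (ZMod 2) V ≤ 8 * finrank (ZMod 2) W + 5 * Fintype.card K := by
  classical
  let Φ : V →ₗ[ZMod 2] (K → ZMod 2) := LinearMap.pi ψ
  have hΦ : ∀ v k, Φ v k = ψ k v := fun _ _ => rfl
  have hΦi : Function.Injective Φ := by
    rw [← LinearMap.ker_eq_bot, Submodule.eq_bot_iff]
    intro v hv
    exact hinj v fun k => congrFun (LinearMap.mem_ker.1 hv) k
  obtain ⟨s', hs', h1⟩ := exists_big (LinearMap.range Φ)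
  obtain ⟨s, rfl⟩ := hs'
  refine ⟨s, (sub (LinearMap.range Φ) (Φ s)).comap Φ, ?_, ?_⟩
  · intro w hw k hk
    exact (Submodule.mem_comap.1 hw).2 k hk
  · rw [LinearMap.finrank_range_of_inj hΦi] at h1
    have h2 : ((sub (LinearMap.range Φ) (Φ s)).comap Φ).map Φ = sub (LinearMap.range Φ) (Φ s) := by
      rw [Submodule.map_comap_eq, inf_eq_right]
      intro v hv
      exact hv.1
    have h3 := Submodule.finrank_map_le Φ ((sub (LinearMap.range Φ) (Φ s)).comap Φ)
    rw [h2] at h3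
    omega

/-- a sum from the sums of the digits -/
lemma sum_two {n N N' : ℕ} (hN : N < 2 ^ n) (hN' : N' < 2 ^ n) (g : ℕ → ℕ)
    (h : ∀ i < n, (N.testBit i).toNat + (N'.testBit i).toNat = g i) :
    N + N' = ∑ i ∈ range n, 2 ^ i * g i := by
  have h1 := Pool.Agent.Helper98.AC.mod_two_pow_eq_sum N n
  have h2 := Pool.Agent.Helper98.AC.mod_two_pow_eq_sum N' n
  rw [Nat.mod_eq_of_lt hN] at h1
  rw [Nat.mod_eq_of_lt hN'] at h2
  rw [h1, h2, ← sum_add_distrib]
  refine sum_congr rfl fun i hi => ?_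
  rw [← h i (mem_range.1 hi), mul_add]

lemma tb_pair : ∀ a t : ZMod 2, (tb a).toNat + (tb (a + t)).toNat =
    if t = 0 then 2 * (tb a).toNat else 1 := by decide

lemma numZ_lt {n : ℕ} (x : Fin n → ZMod 2) : numZ x < 2 ^ n := Nat.ofBits_lt_two_pow _

lemma numZ_testBit {n : ℕ} (x : Fin n → ZMod 2) (i : Fin n) : (numZ x).testBit i = tb (x i) := by
  unfold numZ num
  rw [Nat.testBit_ofBits_lt _ _ i.2]

lemma numZ_inj {n : ℕ} : Function.Injective (numZ : (Fin n → ZMod 2) → ℕ) := by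
  intro x y h
  funext i
  have h1 := numZ_testBit x i
  rw [h, numZ_testBit] at h1
  have h2 := congrArg bz h1
  rw [bz_tb, bz_tb] at h2
  exact h2.symm

theorem spaceStmt : SpaceStmt := by
  intro n A f V x0 φ c δ hφ hcount
  classical
  -- the space `W` and the shift `s`
  let ψ : Fin n ⊕ Fin n → Dual (ZMod 2) V := fun k =>
    Sum.elim (fun i => (LinearMap.proj i).comp V.subtype) φ k
  have hψ1 : ∀ i v, ψ (Sum.inl i) v = (v : Fin n → ZMod 2) i := fun _ _ => rfl
  have hψ2 : ∀ i v, ψ (Sum.inr i) v = φ i v := fun _ _ => rfl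
  obtain ⟨s, W, hW, hdim⟩ := exists_below ψ (fun v hv => by
    refine Subtype.ext (funext fun i => ?_)
    exact hv (Sum.inl i))
  have hcardV : Fintype.card V = 2 ^ finrank (ZMod 2) V := by
    rw [Module.card_eq_pow_finrank (K := ZMod 2), ZMod.card]
  have hcardW : Fintype.card W = 2 ^ finrank (ZMod 2) W := by
    rw [Module.card_eq_pow_finrank (K := ZMod 2), ZMod.card]
  let T : Finset V := univ.filter fun v => Right A f (numZ (x0 + (v : Fin n → ZMod 2)))
  have hT : (Set.ncard {v : V | Right A f (numZ (x0 + (v : Fin n → ZMod 2)))} : ℝ) = #T := by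
    rw [← Set.ncard_coe_finset]
    congr 2
    ext v
    simp [T]
  rw [hT] at hcount
  let T2 : Finset V := univ.filter fun v => v ∈ T ∧ v + s ∈ T
  have hT2 : δ * 2 ^ finrank (ZMod 2) V ≤ #T2 := by
    have h1 : #(T.image fun v => v - s) = #T :=
      card_image_of_injective _ fun a b h => by simpa using h
    have h2 : T ∩ (T.image fun v => v - s) ⊆ T2 := by
      intro v hv
      rw [mem_inter, mem_image] at hv
      obtain ⟨hv1, u, hu, rfl⟩ := hv
      rw [mem_filter]
      refine ⟨mem_univ _, hv1, ?_⟩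
      rw [sub_add_cancel]
      exact hu
    have h3 := card_union_add_card_inter T (T.image fun v => v - s)
    have h4 : #(T ∪ T.image fun v => v - s) ≤ Fintype.card V := card_le_univ _
    have h5 : #(T ∩ T.image fun v => v - s) ≤ #T2 := card_le_card h2
    have h6 : 2 * #T ≤ Fintype.card V + #T2 := by omega
    have h7 : 2 * (#T : ℝ) ≤ 2 ^ finrank (ZMod 2) V + #T2 := by
      rw [hcardV] at h6
      exact_mod_cast h6
    linarith
  -- a dense coset
  obtain ⟨y, hy⟩ : ∃ y : V, δ * 2 ^ finrank (ZMod 2) W ≤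
      (#(univ.filter fun w : W => y + (w : V) ∈ T2) : ℝ) := by
    by_contra hcon
    push Not at hcon
    have h1 : ∑ y : V, (#(univ.filter fun w : W => y + (w : V) ∈ T2) : ℝ) <
        ∑ _y : V, δ * 2 ^ finrank (ZMod 2) W :=
      sum_lt_sum_of_nonempty ⟨0, mem_univ _⟩ fun y _ => hcon y
    have h2 : ∑ y : V, (#(univ.filter fun w : W => y + (w : V) ∈ T2) : ℝ) =
        2 ^ finrank (ZMod 2) W * #T2 := by
      have h3 : ∀ y : V, (#(univ.filter fun w : W => y + (w : V) ∈ T2) : ℝ) =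
          ∑ w : W, if y + (w : V) ∈ T2 then (1 : ℝ) else 0 := by
        intro y
        rw [card_filter]
        push_cast
        rfl
      rw [sum_congr rfl fun y _ => h3 y, sum_comm]
      have h4 : ∀ w : W, ∑ y : V, (if y + (w : V) ∈ T2 then (1 : ℝ) else 0) = #T2 := by
        intro w
        rw [← Equiv.sum_comp (Equiv.subRight (w : V))]
        simp only [Equiv.subRight_apply, sub_add_cancel]
        rw [sum_ite_mem, univ_inter, sum_const, nsmul_eq_mul, mul_one]
      rw [sum_congr rfl fun w _ => h4 w, sum_const, nsmul_eq_mul, card_univ, hcardW]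
      push_cast
      ring
    rw [h2, sum_const, nsmul_eq_mul, card_univ, hcardV] at h1
    push_cast at h1
    have h5 : (0 : ℝ) < 2 ^ finrank (ZMod 2) W := by positivity
    have h6 := mul_le_mul_of_nonneg_left hT2 h5.le
    nlinarith
  set P : Finset W := univ.filter fun w : W => y + (w : V) ∈ T2 with hP
  rcases P.eq_empty_or_nonempty with hPe | hPne
  · refine ⟨0, by positivity, finrank (ZMod 2) W, ?_, ?_⟩
    · rw [Fintype.card_sum, Fintype.card_fin] at hdim
      omega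
    · rw [hPe, card_empty, Nat.cast_zero] at hy
      exact hy.trans (by positivity)
  -- the points
  let X : W → Fin n → ZMod 2 := fun w => x0 + ((y + (w : V) : V) : Fin n → ZMod 2)
  let X' : W → Fin n → ZMod 2 := fun w => x0 + ((y + (w : V) + s : V) : Fin n → ZMod 2)
  have hX : ∀ w ∈ P, Right A f (numZ (X w)) ∧ Right A f (numZ (X' w)) := by
    intro w hw
    have h1 := (mem_filter.1 hw).2
    have h2 := (mem_filter.1 h1).2
    exact ⟨(mem_filter.1 h2.1).2, (mem_filter.1 h2.2).2⟩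
  let g1 : ℕ → ℕ := fun i => if h : i < n then
    (if (s : Fin n → ZMod 2) ⟨i, h⟩ = 0 then
      2 * (tb ((x0 + (y : Fin n → ZMod 2)) ⟨i, h⟩)).toNat else 1) else 0
  let g2 : ℕ → ℕ := fun i => if h : i < n then
    (if φ ⟨i, h⟩ s = 0 then 2 * (tb (c ⟨i, h⟩ + φ ⟨i, h⟩ y)).toNat else 1) else 0
  have hsum1 : ∀ w : W, numZ (X w) + numZ (X' w) = ∑ i ∈ range n, 2 ^ i * g1 i := by
    intro w
    refine sum_two (numZ_lt _) (numZ_lt _) g1 fun i hi => ?_
    have e1 := numZ_testBit (X w) ⟨i, hi⟩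
    have e2 := numZ_testBit (X' w) ⟨i, hi⟩
    simp only at e1 e2
    have e3 : X' w ⟨i, hi⟩ = X w ⟨i, hi⟩ + (s : Fin n → ZMod 2) ⟨i, hi⟩ := by
      simp only [X, X', Submodule.coe_add, Pi.add_apply]
      ring
    rw [e1, e2, e3, tb_pair]
    simp only [g1, dif_pos hi]
    by_cases hs : (s : Fin n → ZMod 2) ⟨i, hi⟩ = 0
    · have hw := hW w w.2 (Sum.inl ⟨i, hi⟩) hs
      have e4 : X w ⟨i, hi⟩ = (x0 + (y : Fin n → ZMod 2)) ⟨i, hi⟩ := by
        rw [hψ1] at hw
        simp only [X, Submodule.coe_add, Pi.add_apply]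
        rw [hw, add_zero]
      rw [if_pos hs, if_pos hs, e4]
    · rw [if_neg hs, if_neg hs]
  have hflt : ∀ w ∈ P, f (numZ (X w)) < 2 ^ n ∧ f (numZ (X' w)) < 2 ^ n := fun w hw =>
    ⟨(hX w hw).1.1.trans_lt (numZ_lt _), (hX w hw).2.1.trans_lt (numZ_lt _)⟩
  have hsum2 : ∀ w ∈ P, f (numZ (X w)) + f (numZ (X' w)) = ∑ i ∈ range n, 2 ^ i * g2 i := by
    intro w hwP
    refine sum_two (hflt w hwP).1 (hflt w hwP).2 g2 fun i hi => ?_
    have e1 := hφ (y + (w : V)) ⟨i, hi⟩
    have e2 := hφ (y + (w : V) + s) ⟨i, hi⟩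
    simp only at e1 e2
    have e1' : (f (numZ (X w))).testBit i = tb (c ⟨i, hi⟩ + φ ⟨i, hi⟩ (y + (w : V))) := by
      rw [← e1, tb_bz]
    have e2' : (f (numZ (X' w))).testBit i =
        tb (c ⟨i, hi⟩ + φ ⟨i, hi⟩ (y + (w : V)) + φ ⟨i, hi⟩ s) := by
      rw [add_assoc, ← map_add, ← e2, tb_bz]
    rw [e1', e2', tb_pair]
    simp only [g2, dif_pos hi]
    by_cases hs : φ ⟨i, hi⟩ s = 0
    · have hw := hW w w.2 (Sum.inr ⟨i, hi⟩) hs
      rw [hψ2] at hw
      rw [if_pos hs, if_pos hs, map_add, hw, add_zero]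
    · rw [if_neg hs, if_neg hs]
  -- the representations
  set M := ∑ i ∈ range n, 2 ^ i * g1 i with hM
  set m1 := ∑ i ∈ range n, 2 ^ i * g2 i with hm1
  let RS : ℕ → Set (ℕ × ℕ) := fun m => {p : ℕ × ℕ | p.1 ∈ A ∧ p.2 ∈ A ∧ p.1 + p.2 = m}
  have hfin : ∀ m, (RS m).Finite := by
    intro m
    refine ((finite_toSet (HasAntidiagonal.antidiagonal m))).subset fun p hp => ?_
    exact mem_coe.2 (HasAntidiagonal.mem_antidiagonal.2 hp.2.2)
  let Θ : W → (ℕ × ℕ) × (ℕ × ℕ) := fun w =>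
    ((f (numZ (X w)), f (numZ (X' w))),
      (numZ (X w) - f (numZ (X w)), numZ (X' w) - f (numZ (X' w))))
  have hmem : ∀ w ∈ P, Θ w ∈ RS m1 ×ˢ RS (M - m1) := by
    intro w hw
    obtain ⟨⟨a1, a2, a3⟩, b1, b2, b3⟩ := hX w hw
    refine ⟨⟨a2, b2, hsum2 w hw⟩, a3, b3, ?_⟩
    have h1 := hsum1 w
    have h2 := hsum2 w hw
    show numZ (X w) - f (numZ (X w)) + (numZ (X' w) - f (numZ (X' w))) = M - m1
    omega
  have hinj : Set.InjOn Θ P := by
    intro w hw w' hw' h
    have h1 : f (numZ (X w)) = f (numZ (X w')) := congrArg (fun p => p.1.1) h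
    have h2 : numZ (X w) - f (numZ (X w)) = numZ (X w') - f (numZ (X w')) :=
      congrArg (fun p => p.2.1) h
    have h3 : numZ (X w) = numZ (X w') := by
      have := (hX w hw).1.1
      have := (hX w' hw').1.1
      omega
    have h4 := numZ_inj h3
    have h5 : ((y + (w : V) : V) : Fin n → ZMod 2) = ((y + (w' : V) : V) : Fin n → ZMod 2) :=
      add_left_cancel h4
    exact Subtype.ext (add_left_cancel (Subtype.ext h5))
  have hle : #P ≤ rep A m1 * rep A (M - m1) := by
    have h1 : Θ '' (P : Set W) ⊆ RS m1 ×ˢ RS (M - m1) := by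
      rintro _ ⟨w, hw, rfl⟩
      exact hmem w hw
    calc #P = (P : Set W).ncard := (Set.ncard_coe_finset P).symm
      _ = (Θ '' (P : Set W)).ncard := (Set.InjOn.ncard_image hinj).symm
      _ ≤ (RS m1 ×ˢ RS (M - m1)).ncard := Set.ncard_le_ncard h1 ((hfin _).prod (hfin _))
      _ = rep A m1 * rep A (M - m1) := Set.ncard_prod
  have hdim' : 11 * finrank (ZMod 2) V ≤ 8 * finrank (ZMod 2) W + 10 * n := by
    rw [Fintype.card_sum, Fintype.card_fin] at hdim
    omega
  obtain ⟨w, hw⟩ := hPne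
  have hlt1 : m1 < 2 ^ (n + 1) := by
    have h1 := hflt w hw
    have h2 := hsum2 w hw
    rw [pow_succ]
    omega
  have hlt2 : M - m1 < 2 ^ (n + 1) := by
    have h1 := numZ_lt (X w)
    have h2 := numZ_lt (X' w)
    have h3 := hsum1 w
    rw [pow_succ]
    omega
  rcases le_total (rep A m1) (rep A (M - m1)) with h | h
  · refine ⟨M - m1, hlt2, finrank (ZMod 2) W, hdim', hy.trans ?_⟩
    have h1 : #P ≤ rep A (M - m1) ^ 2 := by
      rw [sq]
      exact hle.trans (Nat.mul_le_mul_right _ h)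
    exact_mod_cast h1
  · refine ⟨m1, hlt1, finrank (ZMod 2) W, hdim', hy.trans ?_⟩
    have h1 : #P ≤ rep A m1 ^ 2 := by
      rw [sq]
      exact hle.trans (Nat.mul_le_mul_left _ h)
    exact_mod_cast h1

end Pool.Agent.Helper1.BX
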